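import Pool.Agent.Helper903.ES.Main

set_option autoImplicit false

namespace H223R3.Kalai

open Finset ES903

/-- disjoint occurrence of `d` events -/
def compF {V : Type*} [DecidableEq V] : (d : ℕ) → (Fin d → Finset V → Prop) → Finset V → Prop
  | 0, _, _ => True
  | (d + 1), f, S => comp (f 0) (compF d (fun i => f i.succ)) S

theorem compF_mono {V : Type*} [DecidableEq V] : ∀ (d : ℕ) (f : Fin d → Finset V → Prop)
    (S T : Finset V), S ⊆ T → compF d f S → compF d f T := by
  intro d
  induction d with
  | zero => intro f S T _ _; trivial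
  | succ d ih =>
    intro f S T h hS
    exact RT.comp_mono (ih _) S T h hS

theorem glueF {V : Type*} [DecidableEq V] (R : Finset V) : ∀ (d : ℕ)
    (f : Fin d → Finset V → Prop), E R (Fail (compF d f)) ≤ ∑ i, E R (Fail (f i)) := by
  intro d
  induction d with
  | zero =>
    intro f
    simp [E, Fail, compF]
  | succ d ih =>
    intro f
    rw [Fin.sum_univ_succ]
    have h1 := glue R (f 0) (compF d (fun i => f i.succ))
    have h2 := ih (fun i => f i.succ)
    have h3 : compF (d + 1) f = comp (f 0) (compF d (fun i => f i.succ)) := rfl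
    rw [h3]
    linarith

theorem extractF {V : Type*} [DecidableEq V] : ∀ (d : ℕ) (f : Fin d → Finset V → Prop)
    (S : Finset V), compF d f S → ∃ P : Fin d → Finset V, (∀ i, P i ⊆ S) ∧
      (∀ i j, i ≠ j → Disjoint (P i) (P j)) ∧ ∀ i, f i (P i) := by
  intro d
  induction d with
  | zero =>
    intro f S _
    exact ⟨fun i => i.elim0, fun i => i.elim0, fun i => i.elim0, fun i => i.elim0⟩
  | succ d ih =>
    intro f S h
    obtain ⟨S1, h1, h2, h3⟩ := h
    obtain ⟨P, p1, p2, p3⟩ := ih _ _ h3
    refine ⟨Fin.cons S1 P, ?_, ?_, ?_⟩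
    · intro i
      refine Fin.cases ?_ (fun j => ?_) i
      · simpa using h1
      · simpa using (p1 j).trans Finset.sdiff_subset
    · intro i j hij
      have hd : ∀ k, Disjoint S1 (P k) := fun k =>
        Finset.disjoint_of_subset_right (p1 k) Finset.disjoint_sdiff
      induction i using Fin.cases with
      | zero =>
        induction j using Fin.cases with
        | zero => exact absurd rfl hij
        | succ j => simpa using hd j
      | succ i =>
        induction j using Fin.cases with
        | zero => simpa using (hd i).symm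
        | succ j =>
          simp only [Fin.cons_succ]
          exact p2 i j (fun h => hij (by rw [h]))
    · intro i
      refine Fin.cases ?_ (fun j => ?_) i
      · simpa using h2
      · simpa using p3 j

/-- rooted tight trees; the root is an ordered `d`-set, where `d + 1` is the uniformity.
`graft v C B`: the edge `root B ∪ {v}` is attached at the root of `B`, and the tree `C i` is
attached at the facet obtained from `root B` by replacing its `i`-th vertex by `v`. -/
inductive HT (W : Type*) (d : ℕ) where
  | node : (Fin d → W) → HT W d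
  | graft : W → (Fin d → HT W d) → HT W d → HT W d

/-- `p i` planted at `u` -/
def Plant {V : Type*} [DecidableEq V] {d : ℕ} (H : Finset (Finset V))
    (p : Fin d → (Fin d → V) → Finset V → Prop) (u : Fin d → V) (S : Finset V) : Prop :=
  ∃ w ∈ S, insert w (univ.image u) ∈ H ∧
    compF d (fun i S' => p i (Function.update u i w) (S'.erase (u i))) S

namespace HT

variable {W : Type*} {d : ℕ}

def root : HT W d → (Fin d → W)
  | node a => a
  | graft _ _ B => root B

def size : HT W d → ℕ
  | node _ => 0
  | graft _ C B => (∑ i, size (C i)) + size B + 1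

def edges [DecidableEq W] : HT W d → Finset (Finset W)
  | node _ => ∅
  | graft v C B => insert (insert v (univ.image (root B)))
      ((univ.biUnion fun i => edges (C i)) ∪ edges B)

def nv [DecidableEq W] : HT W d → Finset W
  | node _ => ∅
  | graft v C B => insert v ((univ.biUnion fun i => nv (C i)) ∪ nv B)

def Good [DecidableEq W] : HT W d → Prop
  | node _ => True
  | graft v C B => (∀ i, Good (C i)) ∧ Good B ∧ (∀ i, root (C i) = Function.update (root B) i v) ∧
      v ∉ univ.image (root B) ∧ v ∉ nv B ∧ (∀ i, v ∉ nv (C i)) ∧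
      (∀ i j, i ≠ j → Disjoint (nv (C i)) (nv (C j))) ∧ (∀ i, Disjoint (nv (C i)) (nv B)) ∧
      (∀ i, Disjoint (nv (C i)) (univ.image (root B)))

/-- `t` embeds in `H` with root at `u` and the other vertices in `S` -/
def Emb {V : Type*} [DecidableEq V] (H : Finset (Finset V)) :
    HT W d → (Fin d → V) → Finset V → Prop
  | node _, _, _ => True
  | graft _ C B, u, S => comp (Plant H (fun i => Emb H (C i)) u) (Emb H B u) S

end HT

section ineq

variable {V : Type*} [DecidableEq V] {d : ℕ}

theorem Plant_mono (H : Finset (Finset V)) (p : Fin d → (Fin d → V) → Finset V → Prop)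
    (u : Fin d → V) (S T : Finset V) (h : S ⊆ T) (hS : Plant H p u S) : Plant H p u T := by
  obtain ⟨w, h1, h2, h3⟩ := hS
  exact ⟨w, h h1, h2, compF_mono _ _ _ _ h h3⟩

theorem Emb_mono {W : Type*} (H : Finset (Finset V)) (t : HT W d) : ∀ (u : Fin d → V)
    (S T : Finset V), S ⊆ T → t.Emb H u S → t.Emb H u T := by
  induction t with
  | node a => intro u S T _ _; trivial
  | graft v C B _ ihB =>
    intro u S T h hS
    exact RT.comp_mono (ihB u) S T h hS

variable [Fintype V]

/-- the vertices `w` such that `u ∪ {w}` is an edge -/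
def Nb (H : Finset (Finset V)) (u : Fin d → V) : Finset V :=
  univ.filter (fun w => insert w (univ.image u) ∈ H)

open Classical in
/-- injective functions -/
noncomputable def inj (V : Type*) [Fintype V] (d : ℕ) : Finset (Fin d → V) :=
  univ.filter (fun u => Function.Injective u)

theorem mem_inj (u : Fin d → V) : u ∈ inj V d ↔ Function.Injective u := by
  simp [inj]

omit [Fintype V] in
theorem not_mem_image (H : Finset (Finset V)) (hH : ∀ h ∈ H, h.card = d + 1) (u : Fin d → V)
    (w : V) (h : insert w (univ.image u) ∈ H) : ∀ j, u j ≠ w := by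
  intro j hj
  have h1 := hH _ h
  have hw : w ∈ univ.image u := by
    rw [← hj]; exact Finset.mem_image_of_mem _ (Finset.mem_univ _)
  rw [Finset.insert_eq_of_mem hw] at h1
  have h2 : (univ.image u).card ≤ (univ : Finset (Fin d)).card := Finset.card_image_le
  rw [Finset.card_univ, Fintype.card_fin] at h2
  omega

omit [DecidableEq V] [Fintype V] in
theorem update_inj (u : Fin d → V) (hu : Function.Injective u) (i : Fin d) (w : V)
    (hw : ∀ j, u j ≠ w) : Function.Injective (Function.update u i w) := by
  intro a b hab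
  by_cases ha : a = i
  · by_cases hb : b = i
    · rw [ha, hb]
    · subst ha
      rw [Function.update_self, Function.update_of_ne hb] at hab
      exact absurd hab.symm (hw b)
  · by_cases hb : b = i
    · subst hb
      rw [Function.update_self, Function.update_of_ne ha] at hab
      exact absurd hab (hw a)
    · rw [Function.update_of_ne ha, Function.update_of_ne hb] at hab
      exact hu hab

omit [DecidableEq V] [Fintype V] in
theorem insert_update {W : Type*} [DecidableEq W] (u : Fin d → W) (i : Fin d) (w : W) :
    insert (u i) (univ.image (Function.update u i w)) = insert w (univ.image u) := by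
  ext x
  simp only [Finset.mem_insert, Finset.mem_image, Finset.mem_univ, true_and]
  constructor
  · rintro (h | ⟨j, hj⟩)
    · exact Or.inr ⟨i, h.symm⟩
    · by_cases hji : j = i
      · subst hji
        rw [Function.update_self] at hj
        exact Or.inl hj.symm
      · rw [Function.update_of_ne hji] at hj
        exact Or.inr ⟨j, hj⟩
  · rintro (h | ⟨j, hj⟩)
    · exact Or.inr ⟨i, by rw [Function.update_self]; exact h.symm⟩
    · by_cases hji : j = i
      · subst hji
        exact Or.inl hj.symm
      · exact Or.inr ⟨j, by rw [Function.update_of_ne hji]; exact hj⟩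

theorem swap (H : Finset (Finset V)) (hH : ∀ h ∈ H, h.card = d + 1) (i : Fin d)
    (F : (Fin d → V) → V → ℚ) :
    ∑ u ∈ inj V d, ∑ w ∈ Nb H u, F (Function.update u i w) (u i) =
      ∑ u ∈ inj V d, ∑ w ∈ Nb H u, F u w := by
  rw [Finset.sum_sigma', Finset.sum_sigma']
  refine Finset.sum_nbij' (fun x => ⟨Function.update x.1 i x.2, x.1 i⟩)
    (fun x => ⟨Function.update x.1 i x.2, x.1 i⟩) ?_ ?_ ?_ ?_ ?_
  · rintro ⟨u, w⟩ hx
    simp only [Finset.mem_sigma, mem_inj, Nb, Finset.mem_filter, Finset.mem_univ,
      true_and] at hx ⊢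
    refine ⟨update_inj u hx.1 i w (not_mem_image H hH u w hx.2), ?_⟩
    rw [insert_update]; exact hx.2
  · rintro ⟨u, w⟩ hx
    simp only [Finset.mem_sigma, mem_inj, Nb, Finset.mem_filter, Finset.mem_univ,
      true_and] at hx ⊢
    refine ⟨update_inj u hx.1 i w (not_mem_image H hH u w hx.2), ?_⟩
    rw [insert_update]; exact hx.2
  · rintro ⟨u, w⟩ _
    simp
  · rintro ⟨u, w⟩ _
    simp
  · rintro ⟨u, w⟩ _
    rfl

theorem plantH (H : Finset (Finset V)) (hH : ∀ h ∈ H, h.card = d + 1)
    (p : Fin d → (Fin d → V) → Finset V → Prop)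
    (hp : ∀ i u S T, S ⊆ T → p i u S → p i u T) :
    ∑ u ∈ inj V d, (((Nb H u).card : ℚ) + 1) * E univ (Fail (Plant H p u)) ≤
      ∑ i, ∑ u ∈ inj V d, (((Nb H u).card : ℚ) + 1) * E univ (Fail (p i u)) +
        ((inj V d).card : ℚ) * ((Fintype.card V : ℚ) + 1) := by
  have harc : ∑ u ∈ inj V d, ∑ w ∈ Nb H u,
        E univ (fun S => Fail (Plant H p u) (insert w S)) ≤
      ∑ i, ∑ u ∈ inj V d, ∑ w ∈ Nb H u, E univ (fun S => Fail (p i u) (S.erase w)) := by
    have h1 : ∑ i, ∑ u ∈ inj V d, ∑ w ∈ Nb H u, E univ (fun S => Fail (p i u) (S.erase w)) =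
        ∑ i, ∑ u ∈ inj V d, ∑ w ∈ Nb H u,
          E univ (fun S => Fail (p i (Function.update u i w)) (S.erase (u i))) := by
      refine Finset.sum_congr rfl (fun i _ => ?_)
      exact (swap H hH i (fun u w => E univ (fun S => Fail (p i u) (S.erase w)))).symm
    rw [h1, Finset.sum_comm]
    refine Finset.sum_le_sum (fun u _ => ?_)
    rw [Finset.sum_comm]
    refine Finset.sum_le_sum (fun w hw => ?_)
    have h2 := glueF (univ : Finset V) d
      (fun i S' => p i (Function.update u i w) (S'.erase (u i)))
    refine le_trans ?_ h2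
    apply E_mono
    intro S _
    apply Fail_mono
    intro hh
    refine ⟨w, Finset.mem_insert_self _ _, ?_, compF_mono _ _ _ _ (Finset.subset_insert _ _) hh⟩
    simpa [Nb] using hw
  have hL : ∀ u ∈ inj V d, (((Nb H u).card : ℚ) + 1) * E univ (Fail (Plant H p u)) -
      ((Fintype.card V : ℚ) + 1) ≤
      ∑ w ∈ Nb H u, E univ (fun S => Fail (Plant H p u) (insert w S)) := by
    intro u _
    have e1 := E_up (univ : Finset V) (Fail (Plant H p u))
    have e2 : ∑ v ∈ Nb H u, (E univ (Fail (Plant H p u)) -
        E univ (fun S => Fail (Plant H p u) (insert v S))) ≤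
        ∑ v ∈ (univ : Finset V), (E univ (Fail (Plant H p u)) -
          E univ (fun S => Fail (Plant H p u) (insert v S))) := by
      apply Finset.sum_le_sum_of_subset_of_nonneg (Finset.subset_univ _)
      intro x _ _
      have : E univ (fun S => Fail (Plant H p u) (insert x S)) ≤ E univ (Fail (Plant H p u)) := by
        apply E_mono
        intro S _
        apply Fail_mono
        exact Plant_mono H p u S _ (Finset.subset_insert _ _)
      linarith
    rw [e1, Finset.sum_sub_distrib, Finset.sum_const, nsmul_eq_mul, Finset.card_univ] at e2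
    have e3 := Fail_le_one (Plant H p u) ∅
    have e4 : (0:ℚ) ≤ (Fintype.card V : ℚ) + 1 := by positivity
    nlinarith
  have hR : ∀ i, ∀ u ∈ inj V d, ∑ w ∈ Nb H u, E univ (fun S => Fail (p i u) (S.erase w)) ≤
      (((Nb H u).card : ℚ) + 1) * E univ (Fail (p i u)) := by
    intro i u _
    have e1 := E_down (univ : Finset V) (Fail (p i u))
    have e2 : ∑ w ∈ Nb H u, (E univ (fun S => Fail (p i u) (S.erase w)) -
        E univ (Fail (p i u))) ≤
        ∑ w ∈ (univ : Finset V), (E univ (fun S => Fail (p i u) (S.erase w)) -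
        E univ (Fail (p i u))) := by
      apply Finset.sum_le_sum_of_subset_of_nonneg (Finset.subset_univ _)
      intro x _ _
      have : E univ (Fail (p i u)) ≤ E univ (fun S => Fail (p i u) (S.erase x)) := by
        apply E_mono
        intro S _
        apply Fail_mono
        exact hp i u _ _ (Finset.erase_subset _ _)
      linarith
    rw [e1, Finset.sum_sub_distrib, Finset.sum_const, nsmul_eq_mul, Finset.card_univ] at e2
    have e3 := Fail_nonneg (p i u) univ
    have e4 : (0:ℚ) ≤ (Fintype.card V : ℚ) + 1 := by positivity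
    nlinarith [mul_nonneg e4 e3]
  have s1 := Finset.sum_le_sum hL
  have s2 : ∑ i, ∑ u ∈ inj V d, ∑ w ∈ Nb H u, E univ (fun S => Fail (p i u) (S.erase w)) ≤
      ∑ i, ∑ u ∈ inj V d, (((Nb H u).card : ℚ) + 1) * E univ (Fail (p i u)) :=
    Finset.sum_le_sum (fun i _ => Finset.sum_le_sum (hR i))
  rw [Finset.sum_sub_distrib, Finset.sum_const, nsmul_eq_mul] at s1
  linarith

theorem cost {W : Type*} (H : Finset (Finset V)) (hH : ∀ h ∈ H, h.card = d + 1) (t : HT W d) :
    ∑ u ∈ inj V d, (((Nb H u).card : ℚ) + 1) * E univ (Fail (t.Emb H u)) ≤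
      (t.size : ℚ) * (((inj V d).card : ℚ) * ((Fintype.card V : ℚ) + 1)) := by
  induction t with
  | node a =>
    have : ∀ u, E univ (Fail ((HT.node a : HT W d).Emb H u)) = 0 := by
      intro u
      simp [E, Fail, HT.Emb]
    simp [this, HT.size]
  | graft v C B ihC ihB =>
    have h1 := plantH H hH (fun i => (C i).Emb H) (fun i u S T => Emb_mono H (C i) u S T)
    have h2 : ∑ u ∈ inj V d, (((Nb H u).card : ℚ) + 1) *
          E univ (Fail ((HT.graft v C B).Emb H u)) ≤
        ∑ u ∈ inj V d, (((Nb H u).card : ℚ) + 1) *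
          E univ (Fail (Plant H (fun i => (C i).Emb H) u)) +
        ∑ u ∈ inj V d, (((Nb H u).card : ℚ) + 1) * E univ (Fail (B.Emb H u)) := by
      rw [← Finset.sum_add_distrib]
      apply Finset.sum_le_sum
      intro u _
      rw [← mul_add]
      apply mul_le_mul_of_nonneg_left _ (by positivity)
      exact glue univ _ _
    have h3 : ((HT.graft v C B).size : ℚ) = (∑ i, ((C i).size : ℚ)) + B.size + 1 := by
      simp [HT.size]
    have h4 : ∑ i, ∑ u ∈ inj V d, (((Nb H u).card : ℚ) + 1) *
          E univ (Fail ((C i).Emb H u)) ≤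
        (∑ i, ((C i).size : ℚ)) * (((inj V d).card : ℚ) * ((Fintype.card V : ℚ) + 1)) := by
      rw [Finset.sum_mul]
      exact Finset.sum_le_sum (fun i _ => ihC i)
    rw [h3]
    linarith

/-- If the tree embeds nowhere, the degree sum is small. -/
theorem degree_bound {W : Type*} (H : Finset (Finset V)) (hH : ∀ h ∈ H, h.card = d + 1)
    (t : HT W d) (hno : ∀ u, Function.Injective u → ¬ t.Emb H u univ) :
    ∑ u ∈ inj V d, (Nb H u).card + (inj V d).card ≤ t.size * (inj V d).card := by
  have hall : ∀ u ∈ inj V d, E univ (Fail (t.Emb H u)) = (Fintype.card V : ℚ) + 1 := by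
    intro u hu
    have : Fail (t.Emb H u) = fun _ => 1 := by
      funext S
      have : ¬ t.Emb H u S := fun hh =>
        hno u ((mem_inj u).1 hu) (Emb_mono H t u S univ (Finset.subset_univ _) hh)
      simp [Fail, this]
    rw [this, E_one, Finset.card_univ]
  have hc := cost H hH t
  rw [Finset.sum_congr rfl (fun u hu => by rw [hall u hu]), ← Finset.sum_mul,
    Finset.sum_add_distrib] at hc
  simp only [Finset.sum_const, nsmul_eq_mul, mul_one] at hc
  have hn : (0:ℚ) < (Fintype.card V : ℚ) + 1 := by positivity
  rw [← mul_assoc] at hc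
  have hc2 := le_of_mul_le_mul_right hc hn
  exact_mod_cast hc2

end ineq

end H223R3.Kalai
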