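import Pool.Agent.H223R3.Kalai.Extract

set_option autoImplicit false

namespace H223R3.Kalai

open Finset ES903

namespace HT

variable {W : Type*} {d : ℕ} [DecidableEq W]

/-- attach the edge `root t ∪ {x}` -/
def addRoot (x : W) (t : HT W d) : HT W d :=
  graft x (fun j => node (Function.update (root t) j x)) t

theorem addRoot_good (x : W) (t : HT W d) (ht : t.Good) (h1 : x ∉ univ.image t.root)
    (h2 : x ∉ t.nv) : (t.addRoot x).Good := by
  refine ⟨fun _ => trivial, ht, fun _ => rfl, h1, h2, ?_, ?_, ?_, ?_⟩
  · intro i; simp [nv]
  · intro i j _; simp [nv]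
  · intro i; simp [nv]
  · intro i; simp [nv]

theorem addRoot_size (x : W) (t : HT W d) : (t.addRoot x).size = t.size + 1 := by
  simp [addRoot, size]

theorem addRoot_edges (x : W) (t : HT W d) :
    (t.addRoot x).edges = insert (insert x (univ.image t.root)) t.edges := by
  have : (univ.biUnion fun i => edges ((fun j => node (Function.update (root t) j x)) i : HT W d))
      = ∅ := by
    rw [Finset.eq_empty_iff_forall_notMem]
    intro e he
    obtain ⟨i, _, hi⟩ := Finset.mem_biUnion.1 he
    simp [edges] at hi
  show insert (insert x (univ.image t.root)) ((univ.biUnion fun i => edges ((fun j => node (Function.update (root t) j x)) i : HT W d)) ∪ t.edges) = _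
  rw [this, Finset.empty_union]

theorem addRoot_nv (x : W) (t : HT W d) :
    (t.addRoot x).nv = insert x t.nv := by
  have : (univ.biUnion fun i => nv ((fun j => node (Function.update (root t) j x)) i : HT W d))
      = ∅ := by
    rw [Finset.eq_empty_iff_forall_notMem]
    intro e he
    obtain ⟨i, _, hi⟩ := Finset.mem_biUnion.1 he
    simp [nv] at hi
  show insert x ((univ.biUnion fun i => nv ((fun j => node (Function.update (root t) j x)) i : HT W d)) ∪ t.nv) = _
  rw [this, Finset.empty_union]

theorem biUnion_update {α : Type*} [DecidableEq α] (g : HT W d → Finset α) (C : Fin d → HT W d)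
    (i : Fin d) (c : HT W d) (y : α) (h : g c = insert y (g (C i))) :
    (univ.biUnion fun j => g (Function.update C i c j)) =
      insert y (univ.biUnion fun j => g (C j)) := by
  ext z
  simp only [Finset.mem_biUnion, Finset.mem_univ, true_and, Finset.mem_insert]
  constructor
  · rintro ⟨j, hj⟩
    by_cases hji : j = i
    · subst hji
      rw [Function.update_self, h, Finset.mem_insert] at hj
      rcases hj with hj | hj
      · exact Or.inl hj
      · exact Or.inr ⟨j, hj⟩
    · rw [Function.update_of_ne hji] at hj
      exact Or.inr ⟨j, hj⟩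
  · rintro (hz | ⟨j, hj⟩)
    · refine ⟨i, ?_⟩
      rw [Function.update_self, h, Finset.mem_insert]
      exact Or.inl hz
    · by_cases hji : j = i
      · subst hji
        refine ⟨j, ?_⟩
        rw [Function.update_self, h, Finset.mem_insert]
        exact Or.inr hj
      · refine ⟨j, ?_⟩
        rw [Function.update_of_ne hji]; exact hj

/-- `t'` is obtained from `t` by attaching the new edge `Y` with new vertex `x` -/
def Ext (x : W) (Y : Finset W) (t t' : HT W d) : Prop :=
  t'.Good ∧ t'.root = t.root ∧ t'.size = t.size + 1 ∧ t'.edges = insert Y t.edges ∧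
    t'.nv = insert x t.nv

theorem replaceC (x : W) (Y : Finset W) (v : W) (C : Fin d → HT W d) (B : HT W d)
    (hG : (graft v C B).Good) (hx1 : x ∉ (graft v C B).nv) (hx2 : x ∉ univ.image B.root)
    (i : Fin d) (c : HT W d) (hc : Ext x Y (C i) c) :
    Ext x Y (graft v C B) (graft v (Function.update C i c) B) := by
  obtain ⟨c1, c2, c3, c4, c5⟩ := hc
  obtain ⟨hC, hB, hr, hv, hvB, hvC, hCC, hCB, hCr⟩ := hG
  have hxv : x ≠ v := fun h => hx1 (by rw [h]; exact Finset.mem_insert_self _ _)
  have hxC : ∀ j, x ∉ (C j).nv := fun j h => hx1 (Finset.mem_insert_of_mem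
    (Finset.mem_union_left _ (Finset.mem_biUnion.2 ⟨j, Finset.mem_univ _, h⟩)))
  have hxB : x ∉ B.nv := fun h => hx1 (Finset.mem_insert_of_mem (Finset.mem_union_right _ h))
  have hgood : (graft v (Function.update C i c) B).Good := by
    refine ⟨?_, hB, ?_, hv, hvB, ?_, ?_, ?_, ?_⟩
    · intro j
      by_cases hji : j = i
      · subst hji; rw [Function.update_self]; exact c1
      · rw [Function.update_of_ne hji]; exact hC j
    · intro j
      by_cases hji : j = i
      · subst hji; rw [Function.update_self, c2]; exact hr j
      · rw [Function.update_of_ne hji]; exact hr j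
    · intro j
      by_cases hji : j = i
      · subst hji; rw [Function.update_self, c5, Finset.mem_insert]
        rintro (h | h)
        · exact hxv h.symm
        · exact hvC j h
      · rw [Function.update_of_ne hji]; exact hvC j
    · intro j k hjk
      by_cases hji : j = i
      · subst hji
        rw [Function.update_self, Function.update_of_ne (Ne.symm hjk), c5,
          Finset.disjoint_insert_left]
        exact ⟨hxC k, hCC _ _ hjk⟩
      · by_cases hki : k = i
        · subst hki
          rw [Function.update_self, Function.update_of_ne hjk, c5,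
            Finset.disjoint_insert_right]
          exact ⟨hxC j, hCC _ _ hjk⟩
        · rw [Function.update_of_ne hji, Function.update_of_ne hki]
          exact hCC _ _ hjk
    · intro j
      by_cases hji : j = i
      · subst hji
        rw [Function.update_self, c5, Finset.disjoint_insert_left]
        exact ⟨hxB, hCB j⟩
      · rw [Function.update_of_ne hji]; exact hCB j
    · intro j
      by_cases hji : j = i
      · subst hji
        rw [Function.update_self, c5, Finset.disjoint_insert_left]
        exact ⟨hx2, hCr j⟩
      · rw [Function.update_of_ne hji]; exact hCr j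
  refine ⟨hgood, rfl, ?_, ?_, ?_⟩
  · show (∑ j, size (Function.update C i c j)) + size B + 1 =
      (∑ j, size (C j)) + size B + 1 + 1
    have h1 : ∑ j, size (Function.update C i c j) = (∑ j, size (C j)) + 1 := by
      rw [← Finset.add_sum_erase _ _ (Finset.mem_univ i),
        ← Finset.add_sum_erase (univ : Finset (Fin d)) (fun j => size (C j)) (Finset.mem_univ i),
        Function.update_self, c3]
      have h2 : ∑ j ∈ univ.erase i, size (Function.update C i c j) =
          ∑ j ∈ univ.erase i, size (C j) := by
        apply Finset.sum_congr rfl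
        intro j hj
        rw [Function.update_of_ne (Finset.ne_of_mem_erase hj)]
      rw [h2]; omega
    rw [h1]; omega
  · show insert (insert v (univ.image (root B)))
      ((univ.biUnion fun j => edges (Function.update C i c j)) ∪ edges B) =
      insert Y (insert (insert v (univ.image (root B)))
      ((univ.biUnion fun j => edges (C j)) ∪ edges B))
    rw [biUnion_update edges C i c Y c4, Finset.insert_union, Finset.insert_comm]
  · show insert v ((univ.biUnion fun j => nv (Function.update C i c j)) ∪ nv B) =
      insert x (insert v ((univ.biUnion fun j => nv (C j)) ∪ nv B))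
    rw [biUnion_update nv C i c x c5, Finset.insert_union, Finset.insert_comm]

theorem replaceB (x : W) (Y : Finset W) (v : W) (C : Fin d → HT W d) (B : HT W d)
    (hG : (graft v C B).Good) (hx1 : x ∉ (graft v C B).nv)
    (b : HT W d) (hb : Ext x Y B b) :
    Ext x Y (graft v C B) (graft v C b) := by
  obtain ⟨c1, c2, c3, c4, c5⟩ := hb
  obtain ⟨hC, hB, hr, hv, hvB, hvC, hCC, hCB, hCr⟩ := hG
  have hxv : x ≠ v := fun h => hx1 (by rw [h]; exact Finset.mem_insert_self _ _)
  have hxC : ∀ j, x ∉ (C j).nv := fun j h => hx1 (Finset.mem_insert_of_mem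
    (Finset.mem_union_left _ (Finset.mem_biUnion.2 ⟨j, Finset.mem_univ _, h⟩)))
  refine ⟨⟨hC, c1, ?_, ?_, ?_, hvC, hCC, ?_, ?_⟩, c2, ?_, ?_, ?_⟩
  · rw [c2]; exact hr
  · rw [c2]; exact hv
  · rw [c5, Finset.mem_insert]
    rintro (h | h)
    · exact hxv h.symm
    · exact hvB h
  · intro j
    rw [c5, Finset.disjoint_insert_right]
    exact ⟨hxC j, hCB j⟩
  · rw [c2]; exact hCr
  · show (∑ j, size (C j)) + size b + 1 = (∑ j, size (C j)) + size B + 1 + 1
    rw [c3]; omega
  · show insert (insert v (univ.image (root b)))
      ((univ.biUnion fun j => edges (C j)) ∪ edges b) =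
      insert Y (insert (insert v (univ.image (root B)))
      ((univ.biUnion fun j => edges (C j)) ∪ edges B))
    rw [c2, c4, Finset.union_insert, Finset.insert_comm]
  · show insert v ((univ.biUnion fun j => nv (C j)) ∪ nv b) =
      insert x (insert v ((univ.biUnion fun j => nv (C j)) ∪ nv B))
    rw [c5, Finset.union_insert, Finset.insert_comm]

theorem addRoot_ext (x : W) (t : HT W d) (ht : t.Good) (h1 : x ∉ univ.image t.root)
    (h2 : x ∉ t.nv) : Ext x (insert x (univ.image t.root)) t (t.addRoot x) :=
  ⟨addRoot_good x t ht h1 h2, rfl, addRoot_size x t, addRoot_edges x t, addRoot_nv x t⟩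

theorem exists_ext (x : W) (S : Finset W) (hS : S.card = d) (E : Finset W) (hSE : S ⊆ E)
    (t : HT W d) (ht : t.Good) (hri : Function.Injective t.root)
    (hE : E ∈ t.edges) (hx1 : x ∉ t.nv) (hx2 : x ∉ univ.image t.root) :
    ∃ t', Ext x (insert x S) t t' := by
  induction t with
  | node a => simp [edges] at hE
  | graft v C B ihC ihB =>
    have ht0 := ht
    obtain ⟨hC, hB, hr, hv, hvB, hvC, hCC, hCB, hCr⟩ := ht
    have hri' : Function.Injective B.root := hri
    have hxv : x ≠ v := fun h => hx1 (by rw [h]; exact Finset.mem_insert_self _ _)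
    have hxC : ∀ j, x ∉ (C j).nv := fun j h => hx1 (Finset.mem_insert_of_mem
      (Finset.mem_union_left _ (Finset.mem_biUnion.2 ⟨j, Finset.mem_univ _, h⟩)))
    have hxB : x ∉ B.nv := fun h => hx1 (Finset.mem_insert_of_mem (Finset.mem_union_right _ h))
    have hx2' : x ∉ univ.image B.root := hx2
    have hxCr : ∀ j, x ∉ univ.image (C j).root := by
      intro j hj
      rw [hr j] at hj
      rcases Finset.mem_insert.1 (image_update_sub _ _ _ hj) with h | h
      · exact hxv h
      · exact hx2' h
    have hvr : ∀ j, B.root j ≠ v :=
      fun j hj => hv (hj ▸ Finset.mem_image_of_mem _ (Finset.mem_univ j))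
    have he' : E ∈ insert (insert v (univ.image (root B)))
        ((univ.biUnion fun i => edges (C i)) ∪ edges B) := hE
    rcases Finset.mem_insert.1 he' with h | h
    · by_cases hvS : v ∈ S
      · -- `S` is the image of `root (C i)`
        have h1 : ∃ i, B.root i ∉ S := by
          by_contra hcon
          push Not at hcon
          have h2 : insert v (univ.image B.root) ⊆ S := by
            intro z hz
            rcases Finset.mem_insert.1 hz with h3 | h3
            · rw [h3]; exact hvS
            · obtain ⟨i, _, hi⟩ := Finset.mem_image.1 h3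
              rw [← hi]; exact hcon i
          have h3 := Finset.card_le_card h2
          rw [Finset.card_insert_of_notMem hv, Finset.card_image_of_injective _ hri',
            Finset.card_univ, Fintype.card_fin] at h3
          omega
        obtain ⟨i, hi⟩ := h1
        have hSi : S = univ.image (C i).root := by
          apply Finset.eq_of_subset_of_card_le
          · intro z hz
            rw [hr i]
            have h3 : z ∈ insert v (univ.image B.root) := by rw [← h]; exact hSE hz
            rcases Finset.mem_insert.1 h3 with h4 | h4
            · rw [h4]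
              exact Finset.mem_image.2 ⟨i, Finset.mem_univ _, Function.update_self _ _ _⟩
            · obtain ⟨j, _, hj⟩ := Finset.mem_image.1 h4
              have hji : j ≠ i := by
                rintro rfl
                rw [hj] at hi; exact hi hz
              exact Finset.mem_image.2 ⟨j, Finset.mem_univ _, by
                rw [Function.update_of_ne hji]; exact hj⟩
          · rw [hS]
            refine Finset.card_image_le.trans ?_
            rw [Finset.card_univ, Fintype.card_fin]
        refine ⟨_, replaceC x (insert x S) v C B ht0 hx1 hx2' i ((C i).addRoot x) ?_⟩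
        rw [hSi]
        exact addRoot_ext x (C i) (hC i) (hxCr i) (hxC i)
      · -- `S` is the image of `root B`
        have hSB : S = univ.image B.root := by
          apply Finset.eq_of_subset_of_card_le
          · intro z hz
            have h3 : z ∈ insert v (univ.image B.root) := by rw [← h]; exact hSE hz
            rcases Finset.mem_insert.1 h3 with h4 | h4
            · exact absurd (h4 ▸ hz) hvS
            · exact h4
          · rw [hS]
            refine Finset.card_image_le.trans ?_
            rw [Finset.card_univ, Fintype.card_fin]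
        refine ⟨(graft v C B).addRoot x, ?_⟩
        rw [hSB]
        exact addRoot_ext x (graft v C B) ht0 hx2 hx1
    · rcases Finset.mem_union.1 h with h | h
      · obtain ⟨i, _, hi⟩ := Finset.mem_biUnion.1 h
        have hri2 : Function.Injective (C i).root := by
          rw [hr i]; exact update_inj _ hri' i v hvr
        obtain ⟨c, hc⟩ := ihC i (hC i) hri2 hi (hxC i) (hxCr i)
        exact ⟨_, replaceC x (insert x S) v C B ht0 hx1 hx2' i c hc⟩
      · obtain ⟨b, hb⟩ := ihB hB hri' h hxB hx2'
        exact ⟨_, replaceB x (insert x S) v C B ht0 hx1 b hb⟩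

theorem exists_inj_of_card (S : Finset W) (hS : S.card = d) :
    ∃ a : Fin d → W, Function.Injective a ∧ univ.image a = S := by
  let eqv := (S.equivFinOfCardEq hS).symm
  refine ⟨fun i => (eqv i).val, ?_, ?_⟩
  · intro i j hij
    exact eqv.injective (Subtype.ext hij)
  · ext z
    constructor
    · intro hz
      obtain ⟨i, _, hi⟩ := Finset.mem_image.1 hz
      rw [← hi]; exact (eqv i).2
    · intro hz
      refine Finset.mem_image.2 ⟨eqv.symm ⟨z, hz⟩, Finset.mem_univ _, ?_⟩
      simp

/-- every tight tree is the edge set of a `Good` rooted tree -/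
theorem exists_HT (e : ℕ → Finset W) (t : ℕ) (h0 : (e 0).card = d + 1)
    (hstep : ∀ i, 0 < i → i < t → ∃ j, j < i ∧ ∃ S : Finset W, S ⊆ e j ∧ S.card = d ∧
      ∃ v : W, v ∉ (Finset.range i).biUnion e ∧ e i = insert v S) :
    ∀ m, m + 1 ≤ t → ∃ T : HT W d, T.Good ∧ Function.Injective T.root ∧ T.size = m + 1 ∧
      T.edges = (Finset.range (m + 1)).image e ∧
      T.nv ∪ univ.image T.root = (Finset.range (m + 1)).biUnion e := by
  intro m
  induction m with
  | zero =>
    intro _
    have hne : (e 0).Nonempty := by
      rw [← Finset.card_pos]; omega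
    obtain ⟨y, hy⟩ := hne
    have hc : ((e 0).erase y).card = d := by
      rw [Finset.card_erase_of_mem hy]; omega
    obtain ⟨a, ha1, ha2⟩ := exists_inj_of_card _ hc
    have hext := addRoot_ext y (node a) trivial
      (by show y ∉ univ.image a; rw [ha2]; simp) (by simp [nv])
    obtain ⟨c1, c2, c3, c4, c5⟩ := hext
    refine ⟨(node a).addRoot y, c1, ?_, ?_, ?_, ?_⟩
    · rw [c2]; exact ha1
    · rw [c3]; rfl
    · rw [c4]
      show insert (insert y (univ.image a)) ∅ = _
      rw [ha2, Finset.insert_erase hy]
      simp
    · rw [c5, c2]
      show insert y ∅ ∪ univ.image a = _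
      rw [ha2, Finset.insert_union, Finset.empty_union, Finset.insert_erase hy]
      simp
  | succ m ih =>
    intro hm
    obtain ⟨T, t1, t2, t3, t4, t5⟩ := ih (by omega)
    obtain ⟨j, hj, S, hSj, hSc, v, hv, hev⟩ := hstep (m + 1) (by omega) (by omega)
    have hE : e j ∈ T.edges := by
      rw [t4]; exact Finset.mem_image_of_mem _ (Finset.mem_range.2 hj)
    rw [← t5] at hv
    obtain ⟨T', c1, c2, c3, c4, c5⟩ := exists_ext v S hSc (e j) hSj T t1 t2 hE
      (fun h => hv (Finset.mem_union_left _ h)) (fun h => hv (Finset.mem_union_right _ h))
    refine ⟨T', c1, ?_, ?_, ?_, ?_⟩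
    · rw [c2]; exact t2
    · rw [c3, t3]
    · have h1 : (Finset.range (m + 1 + 1)).image e =
          insert (e (m + 1)) ((Finset.range (m + 1)).image e) := by
        rw [Finset.range_add_one (n := m + 1), Finset.image_insert]
      rw [c4, t4, ← hev, h1]
    · rw [c5, c2, Finset.insert_union, t5]
      have h1 : (Finset.range (m + 1 + 1)).biUnion e =
          e (m + 1) ∪ (Finset.range (m + 1)).biUnion e := by
        rw [Finset.range_add_one (n := m + 1), Finset.biUnion_insert]
      rw [h1, hev, Finset.insert_union]
      have h2 : S ⊆ (Finset.range (m + 1)).biUnion e :=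
        hSj.trans (Finset.subset_biUnion_of_mem e (Finset.mem_range.2 hj))
      rw [Finset.union_eq_right.2 h2]

end HT

end H223R3.Kalai
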