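import Pool.Agent.H223R3.Kalai.Basic

set_option autoImplicit false

namespace H223R3.Kalai

open Finset ES903

namespace HT

variable {W : Type*} {d : ℕ} [DecidableEq W]

theorem nv_root (t : HT W d) (h : t.Good) : Disjoint t.nv (univ.image t.root) := by
  induction t with
  | node a => simp [nv]
  | graft v C B ihC ihB =>
    obtain ⟨hC, hB, hr, hv, hvB, hvC, hCC, hCB, hCr⟩ := h
    show Disjoint (insert v ((univ.biUnion fun i => nv (C i)) ∪ nv B)) (univ.image (root B))
    rw [Finset.disjoint_insert_left, Finset.disjoint_union_left, Finset.disjoint_biUnion_left]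
    exact ⟨hv, fun i _ => hCr i, ihB hB⟩

theorem image_update_sub {W' : Type*} [DecidableEq W'] (u : Fin d → W') (i : Fin d) (w : W') :
    univ.image (Function.update u i w) ⊆ insert w (univ.image u) := by
  rw [← insert_update u i w]
  exact Finset.subset_insert _ _

theorem edges_sub (t : HT W d) (h : t.Good) :
    ∀ e ∈ t.edges, e ⊆ t.nv ∪ univ.image t.root := by
  induction t with
  | node a => intro e he; simp [edges] at he
  | graft v C B ihC ihB =>
    obtain ⟨hC, hB, hr, hv, hvB, hvC, hCC, hCB, hCr⟩ := h
    intro e he
    have he' : e ∈ insert (insert v (univ.image (root B)))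
      ((univ.biUnion fun i => edges (C i)) ∪ edges B) := he
    show e ⊆ (insert v ((univ.biUnion fun i => nv (C i)) ∪ nv B)) ∪ univ.image (root B)
    rcases Finset.mem_insert.1 he' with h | h
    · intro x hx
      rw [h] at hx
      rcases Finset.mem_insert.1 hx with h1 | h1
      · exact Finset.mem_union_left _ (Finset.mem_insert.2 (Or.inl h1))
      · exact Finset.mem_union_right _ h1
    · rcases Finset.mem_union.1 h with h | h
      · obtain ⟨i, _, hi⟩ := Finset.mem_biUnion.1 h
        intro x hx
        rcases Finset.mem_union.1 (ihC i (hC i) e hi hx) with h1 | h1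
        · exact Finset.mem_union_left _ (Finset.mem_insert_of_mem (Finset.mem_union_left _
            (Finset.mem_biUnion.2 ⟨i, Finset.mem_univ _, h1⟩)))
        · rw [hr i] at h1
          rcases Finset.mem_insert.1 (image_update_sub _ _ _ h1) with h2 | h2
          · exact Finset.mem_union_left _ (Finset.mem_insert.2 (Or.inl h2))
          · exact Finset.mem_union_right _ h2
      · intro x hx
        rcases Finset.mem_union.1 (ihB hB e h hx) with h1 | h1
        · exact Finset.mem_union_left _ (Finset.mem_insert_of_mem (Finset.mem_union_right _ h1))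
        · exact Finset.mem_union_right _ h1

theorem extract {V : Type*} [DecidableEq V] [Nonempty V] (H : Finset (Finset V))
    (hH : ∀ h ∈ H, h.card = d + 1) (t : HT W d) (ht : t.Good)
    (hri : Function.Injective t.root) (u : Fin d → V) (S : Finset V) (h : t.Emb H u S) :
    ∃ f : W → V, (∀ i, f (t.root i) = u i) ∧ Set.InjOn f t.nv ∧
      (∀ x ∈ t.nv, f x ∈ S ∧ f x ∉ univ.image u) ∧ (∀ e ∈ t.edges, e.image f ∈ H) := by
  classical
  induction t generalizing u S with
  | node a =>
    refine ⟨Function.extend a u (fun _ => Classical.arbitrary V), ?_, ?_, ?_, ?_⟩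
    · intro i
      exact hri.extend_apply u _ i
    · simp [nv]
    · simp [nv]
    · simp [edges]
  | graft v C B ihC ihB =>
    obtain ⟨hC, hB, hr, hv, hvB, hvC, hCC, hCB, hCr⟩ := ht
    obtain ⟨S1, hS1, ⟨w, hw, hwH, hP⟩, hEB⟩ := h
    have hri' : Function.Injective B.root := hri
    obtain ⟨P, p1, p2, p3⟩ := extractF _ _ _ hP
    have hvr : ∀ j, B.root j ≠ v := fun j hj => hv (hj ▸ Finset.mem_image_of_mem _ (Finset.mem_univ j))
    have hwu : ∀ j, u j ≠ w := not_mem_image H hH u w hwH
    have hF : ∀ i, ∃ f : W → V, (∀ j, f ((C i).root j) = Function.update u i w j) ∧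
        Set.InjOn f (C i).nv ∧
        (∀ x ∈ (C i).nv, f x ∈ (P i).erase (u i) ∧ f x ∉ univ.image (Function.update u i w)) ∧
        (∀ e ∈ (C i).edges, e.image f ∈ H) := by
      intro i
      have hri2 : Function.Injective (C i).root := by
        rw [hr i]; exact update_inj _ hri' i v hvr
      exact ihC i (hC i) hri2 (Function.update u i w) ((P i).erase (u i)) (p3 i)
    choose F hF1 hF2 hF3 hF4 using hF
    obtain ⟨g, hg1, hg2, hg3, hg4⟩ := ihB hB hri' u (S \ S1) hEB
    have hFx : ∀ i, ∀ x ∈ (C i).nv, F i x ∈ P i ∧ (∀ j, F i x ≠ u j) ∧ F i x ≠ w := by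
      intro i x hx
      obtain ⟨h1, h2⟩ := hF3 i x hx
      refine ⟨Finset.mem_of_mem_erase h1, ?_, ?_⟩
      · intro j hj
        by_cases hji : j = i
        · subst hji
          exact Finset.ne_of_mem_erase h1 hj
        · apply h2
          rw [Finset.mem_image]
          exact ⟨j, Finset.mem_univ _, by rw [Function.update_of_ne hji]; exact hj.symm⟩
      · intro hj
        apply h2
        rw [Finset.mem_image]
        exact ⟨i, Finset.mem_univ _, by rw [Function.update_self]; exact hj.symm⟩
    obtain ⟨f, hf⟩ : ∃ f : W → V, f = fun x => if x = v then w else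
        if hx : ∃ i, x ∈ (C i).nv then F hx.choose x else g x := ⟨_, rfl⟩
    have fv : f v = w := by rw [hf]; simp
    have fC : ∀ i, ∀ x ∈ (C i).nv, f x = F i x := by
      intro i x hx
      have hxv : x ≠ v := fun h => hvC i (h ▸ hx)
      have hex : ∃ i, x ∈ (C i).nv := ⟨i, hx⟩
      have hii : hex.choose = i := by
        by_contra hne
        exact (Finset.disjoint_left.1 (hCC _ _ hne)) hex.choose_spec hx
      rw [hf]
      simp only [hxv, if_false, dif_pos hex]
      rw [hii]
    have fB : ∀ x, x ∉ insert v (univ.biUnion fun i => (C i).nv) → f x = g x := by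
      intro x hx
      have hxv : x ≠ v := fun h => hx (by rw [h]; exact Finset.mem_insert_self _ _)
      have hex : ¬ ∃ i, x ∈ (C i).nv := by
        rintro ⟨i, hi⟩
        exact hx (Finset.mem_insert_of_mem (Finset.mem_biUnion.2 ⟨i, Finset.mem_univ _, hi⟩))
      rw [hf]
      simp only [hxv, if_false, dif_neg hex]
    have fBn : ∀ x ∈ B.nv, f x = g x := by
      intro x hx
      apply fB
      intro h
      rcases Finset.mem_insert.1 h with h | h
      · exact hvB (h ▸ hx)
      · obtain ⟨i, _, hi⟩ := Finset.mem_biUnion.1 h
        exact (Finset.disjoint_left.1 (hCB i)) hi hx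
    have fBr : ∀ i, f (B.root i) = u i := by
      intro i
      rw [fB, hg1]
      intro h
      rcases Finset.mem_insert.1 h with h | h
      · exact hvr i h
      · obtain ⟨j, _, hj⟩ := Finset.mem_biUnion.1 h
        exact (Finset.disjoint_left.1 (hCr j)) hj (Finset.mem_image_of_mem _ (Finset.mem_univ _))
    have hcases : ∀ x ∈ (HT.graft v C B).nv, x = v ∨ (∃ i, x ∈ (C i).nv) ∨ x ∈ B.nv := by
      intro x hx
      have hx' : x ∈ insert v ((univ.biUnion fun i => nv (C i)) ∪ nv B) := hx
      rcases Finset.mem_insert.1 hx' with h | h
      · exact Or.inl h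
      · rcases Finset.mem_union.1 h with h | h
        · obtain ⟨i, _, hi⟩ := Finset.mem_biUnion.1 h
          exact Or.inr (Or.inl ⟨i, hi⟩)
        · exact Or.inr (Or.inr h)
    have hCS : ∀ i, ∀ x ∈ (C i).nv, f x ∈ S1 := by
      intro i x hx
      rw [fC i x hx]
      exact p1 i (hFx i x hx).1
    have hBS : ∀ x ∈ B.nv, f x ∉ S1 := by
      intro x hx
      rw [fBn x hx]
      exact (Finset.mem_sdiff.1 (hg3 x hx).1).2
    refine ⟨f, fBr, ?_, ?_, ?_⟩
    · intro x hx y hy hxy
      have hx' := hcases x (by exact_mod_cast hx)
      have hy' := hcases y (by exact_mod_cast hy)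
      clear hx hy
      rcases hx' with rfl | ⟨i, hi⟩ | hx
      · rcases hy' with rfl | ⟨j, hj⟩ | hy
        · rfl
        · rw [fv, fC j y hj] at hxy
          exact absurd hxy.symm (hFx j y hj).2.2
        · rw [fv] at hxy
          exact absurd (hxy ▸ hw) (hBS y hy)
      · rcases hy' with rfl | ⟨j, hj⟩ | hy
        · rw [fv, fC i x hi] at hxy
          exact absurd hxy (hFx i x hi).2.2
        · by_cases hij : i = j
          · subst hij
            rw [fC i x hi, fC i y hj] at hxy
            exact hF2 i (by exact_mod_cast hi) (by exact_mod_cast hj) hxy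
          · have h1 := (hFx i x hi).1
            have h2 := (hFx j y hj).1
            rw [← fC i x hi, hxy] at h1
            rw [← fC j y hj] at h2
            exact absurd h2 ((Finset.disjoint_left.1 (p2 i j hij)) h1)
        · exact absurd (hxy ▸ hCS i x hi) (hBS y hy)
      · rcases hy' with rfl | ⟨j, hj⟩ | hy
        · rw [fv] at hxy
          exact absurd (hxy ▸ hw) (hBS x hx)
        · exact absurd (hxy ▸ hCS j y hj) (hBS x hx)
        · rw [fBn x hx, fBn y hy] at hxy
          exact hg2 (by exact_mod_cast hx) (by exact_mod_cast hy) hxy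
    · intro x hx
      rcases hcases x hx with rfl | ⟨i, hi⟩ | hx
      · rw [fv]
        refine ⟨hS1 hw, ?_⟩
        rw [Finset.mem_image]
        rintro ⟨j, _, hj⟩
        exact hwu j hj
      · refine ⟨hS1 (hCS i x hi), ?_⟩
        rw [fC i x hi, Finset.mem_image]
        rintro ⟨j, _, hj⟩
        exact (hFx i x hi).2.1 j hj.symm
      · rw [fBn x hx]
        exact ⟨(Finset.mem_sdiff.1 (hg3 x hx).1).1, (hg3 x hx).2⟩
    · intro e he
      have he' : e ∈ insert (insert v (univ.image (root B)))
        ((univ.biUnion fun i => edges (C i)) ∪ edges B) := he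
      rcases Finset.mem_insert.1 he' with h | h
      · rw [h, Finset.image_insert, fv, Finset.image_image]
        have : f ∘ B.root = u := by
          funext i; exact fBr i
        rw [this]; exact hwH
      · rcases Finset.mem_union.1 h with h | h
        · obtain ⟨i, _, hi⟩ := Finset.mem_biUnion.1 h
          have h1 := hF4 i e hi
          have h2 : e.image f = e.image (F i) := by
            apply Finset.image_congr
            intro x hx
            have hx' := edges_sub (C i) (hC i) e hi (by exact_mod_cast hx)
            rcases Finset.mem_union.1 hx' with h3 | h3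
            · exact fC i x h3
            · obtain ⟨j, _, hj⟩ := Finset.mem_image.1 h3
              rw [← hj, hF1 i j, hr i]
              by_cases hji : j = i
              · subst hji
                rw [Function.update_self, Function.update_self, fv]
              · rw [Function.update_of_ne hji, Function.update_of_ne hji, fBr]
          rw [h2]; exact h1
        · have h1 := hg4 e h
          have h2 : e.image f = e.image g := by
            apply Finset.image_congr
            intro x hx
            have hx' := edges_sub B hB e h (by exact_mod_cast hx)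
            rcases Finset.mem_union.1 hx' with h3 | h3
            · exact fBn x h3
            · obtain ⟨j, _, hj⟩ := Finset.mem_image.1 h3
              rw [← hj, fBr, hg1]
          rw [h2]; exact h1

end HT

end H223R3.Kalai
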