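import Pool.Agent.H223R3.Kalai.Exist

set_option autoImplicit false

namespace H223R3.Kalai

open Finset ES903

section count

variable {V : Type*} [DecidableEq V] [Fintype V] {d : ℕ}

theorem card_inj : (inj V d).card = (Fintype.card V).descFactorial d := by
  classical
  have h1 : (inj V d).card = Fintype.card {u : Fin d → V // Function.Injective u} := by
    rw [Fintype.card_subtype]
    unfold inj
    congr 1
    ext u; simp
  rw [h1, Fintype.card_congr (Equiv.subtypeInjectiveEquivEmbedding (Fin d) V),
    Fintype.card_embedding_eq, Fintype.card_fin]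

theorem descFactorial_succ_self (d : ℕ) : (d + 1).descFactorial d = (d + 1).factorial := by
  have h := Nat.descFactorial_succ (d + 1) d
  rw [Nat.descFactorial_self] at h
  have h2 : d + 1 - d = 1 := by omega
  rw [h2, one_mul] at h
  exact h.symm

theorem card_inj_sub (h : Finset V) (hh : h.card = d + 1) :
    (d + 1).factorial ≤ ((inj V d).filter (fun u => univ.image u ⊆ h)).card := by
  classical
  have h1 : Fintype.card (Fin d ↪ {x // x ∈ h}) = (d + 1).factorial := by
    rw [Fintype.card_embedding_eq, Fintype.card_fin, Fintype.card_coe, hh,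
      descFactorial_succ_self]
  rw [← h1, ← Finset.card_univ]
  apply Finset.card_le_card_of_injOn (fun (f : Fin d ↪ {x // x ∈ h}) => (fun i => (f i).val))
  · intro f _
    simp only [Finset.coe_filter, Set.mem_setOf_eq, mem_inj]
    refine ⟨?_, ?_⟩
    · intro i j hij
      exact f.injective (Subtype.ext hij)
    · intro z hz
      obtain ⟨i, _, hi⟩ := Finset.mem_image.1 hz
      rw [← hi]; exact (f i).2
  · intro f _ g _ hfg
    ext i
    exact congrFun hfg i

theorem nb_ge (H : Finset (Finset V)) (hH : ∀ h ∈ H, h.card = d + 1) (u : Fin d → V)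
    (hu : Function.Injective u) :
    (H.filter (fun h => univ.image u ⊆ h)).card ≤ (Nb H u).card := by
  have hsub : H.filter (fun h => univ.image u ⊆ h) ⊆
      (Nb H u).image (fun w => insert w (univ.image u)) := by
    intro h hh
    rw [Finset.mem_filter] at hh
    obtain ⟨h1, h2⟩ := hh
    have hc : (univ.image u).card = d := by
      rw [Finset.card_image_of_injective _ hu, Finset.card_univ, Fintype.card_fin]
    have h3 : (h \ univ.image u).Nonempty := by
      rw [← Finset.card_pos, Finset.card_sdiff_of_subset h2, hH h h1, hc]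
      omega
    obtain ⟨w, hw⟩ := h3
    rw [Finset.mem_sdiff] at hw
    have h4 : insert w (univ.image u) = h := by
      apply Finset.eq_of_subset_of_card_le
      · intro z hz
        rcases Finset.mem_insert.1 hz with h5 | h5
        · rw [h5]; exact hw.1
        · exact h2 h5
      · rw [hH h h1, Finset.card_insert_of_notMem hw.2, hc]
    rw [Finset.mem_image]
    refine ⟨w, ?_, h4⟩
    simp only [Nb, Finset.mem_filter, Finset.mem_univ, true_and]
    rw [h4]; exact h1
  exact (Finset.card_le_card hsub).trans Finset.card_image_le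

theorem sum_nb_ge (H : Finset (Finset V)) (hH : ∀ h ∈ H, h.card = d + 1) :
    H.card * (d + 1).factorial ≤ ∑ u ∈ inj V d, (Nb H u).card := by
  have h1 : ∑ u ∈ inj V d, (H.filter (fun h => univ.image u ⊆ h)).card ≤
      ∑ u ∈ inj V d, (Nb H u).card := by
    apply Finset.sum_le_sum
    intro u hu
    exact nb_ge H hH u ((mem_inj u).1 hu)
  have h2 : ∑ u ∈ inj V d, (H.filter (fun h => univ.image u ⊆ h)).card =
      ∑ h ∈ H, ((inj V d).filter (fun u => univ.image u ⊆ h)).card := by
    simp only [Finset.card_filter]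
    rw [Finset.sum_comm]
  have h3 : ∑ h ∈ H, (d + 1).factorial ≤
      ∑ h ∈ H, ((inj V d).filter (fun u => univ.image u ⊆ h)).card := by
    apply Finset.sum_le_sum
    intro h hh
    exact card_inj_sub h (hH h hh)
  rw [Finset.sum_const, smul_eq_mul] at h3
  omega

/-- Kalai's bound for rooted trees. -/
theorem bound_HT {W : Type*} [DecidableEq W] [Nonempty V]
    (H : Finset (Finset V)) (hH : ∀ h ∈ H, h.card = d + 1)
    (T : HT W d) (hT : T.Good) (hri : Function.Injective T.root)
    (hno : ¬ ∃ f : W → V, Set.InjOn f ((T.nv ∪ univ.image T.root : Finset W) : Set W) ∧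
      ∀ e ∈ T.edges, e.image f ∈ H) :
    H.card * (d + 1) + (Fintype.card V).choose d ≤ T.size * (Fintype.card V).choose d := by
  classical
  have hno' : ∀ u, Function.Injective u → ¬ T.Emb H u univ := by
    intro u hu hE
    obtain ⟨f, f1, f2, f3, f4⟩ := HT.extract H hH T hT hri u univ hE
    apply hno
    refine ⟨f, ?_, f4⟩
    intro x hx y hy hxy
    rw [Finset.mem_coe, Finset.mem_union] at hx hy
    rcases hx with hx | hx
    · rcases hy with hy | hy
      · exact f2 (by exact_mod_cast hx) (by exact_mod_cast hy) hxy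
      · obtain ⟨j, _, hj⟩ := Finset.mem_image.1 hy
        rw [← hj, f1] at hxy
        exact absurd (Finset.mem_image.2 ⟨j, Finset.mem_univ _, hxy.symm⟩) (f3 x hx).2
    · obtain ⟨i, _, hi⟩ := Finset.mem_image.1 hx
      rcases hy with hy | hy
      · rw [← hi, f1] at hxy
        exact absurd (Finset.mem_image.2 ⟨i, Finset.mem_univ _, hxy⟩) (f3 y hy).2
      · obtain ⟨j, _, hj⟩ := Finset.mem_image.1 hy
        rw [← hi, ← hj, f1, f1] at hxy
        rw [← hi, ← hj, hu hxy]
  have h1 := degree_bound H hH T hno'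
  have h2 := sum_nb_ge H hH
  rw [card_inj, Nat.descFactorial_eq_factorial_mul_choose] at h1
  have h3 : (H.card * (d + 1) + (Fintype.card V).choose d) * d.factorial ≤
      (T.size * (Fintype.card V).choose d) * d.factorial := by
    rw [Nat.factorial_succ] at h2
    nlinarith [h1, h2]
  exact Nat.le_of_mul_le_mul_right h3 (Nat.factorial_pos d)

/-- **Kalai's conjecture.**  If `e 0, …, e (t - 1)` is a tight `(d+1)`-tree and `H` is a
`(d+1)`-uniform hypergraph with no copy of it, then `|H| ≤ (t-1)/(d+1) * C(n, d)`. -/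
theorem kalai {W : Type*} [DecidableEq W] [Nonempty V] (e : ℕ → Finset W) (t : ℕ) (ht : 1 ≤ t)
    (h0 : (e 0).card = d + 1)
    (hstep : ∀ i, 0 < i → i < t → ∃ j, j < i ∧ ∃ S : Finset W, S ⊆ e j ∧ S.card = d ∧
      ∃ v : W, v ∉ (Finset.range i).biUnion e ∧ e i = insert v S)
    (H : Finset (Finset V)) (hH : ∀ h ∈ H, h.card = d + 1)
    (hno : ¬ ∃ f : W → V, Set.InjOn f (((Finset.range t).biUnion e : Finset W) : Set W) ∧
      ∀ i, i < t → (e i).image f ∈ H) :
    H.card * (d + 1) + (Fintype.card V).choose d ≤ t * (Fintype.card V).choose d := by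
  obtain ⟨T, t1, t2, t3, t4, t5⟩ := HT.exists_HT e t h0 hstep (t - 1) (by omega)
  have ht' : t - 1 + 1 = t := by omega
  rw [ht'] at t3 t4 t5
  rw [← t3]
  apply bound_HT H hH T t1 t2
  rw [t5, t4]
  rintro ⟨f, f1, f2⟩
  apply hno
  refine ⟨f, f1, ?_⟩
  intro i hi
  exact f2 _ (Finset.mem_image_of_mem _ (Finset.mem_range.2 hi))

theorem real_bound (N c d t : ℕ) (h : N * (d + 1) + c ≤ t * c) :
    (N : ℝ) ≤ ((t : ℝ) - 1) / ((d : ℝ) + 1) * (c : ℝ) := by
  have h1 : ((N * (d + 1) + c : ℕ) : ℝ) ≤ ((t * c : ℕ) : ℝ) := by exact_mod_cast h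
  push_cast at h1
  rw [div_mul_eq_mul_div, le_div_iff₀ (by positivity)]
  linarith

end count

end H223R3.Kalai
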